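import Pool.Agent.RegPoly.FiveSevenReg
import Pool.Agent.RP38.Final

/-!
# Erdős–Herzog–Piranian, odd case: regular polygons maximise the product of pairwise distances

Full answer to Q1 of MP_d975fc_co: for every odd `n` a regular `n`-gon is a maximiser of the product of the
pairwise distances of `n` points of diameter at most two.
-/

set_option autoImplicit false

namespace Pool.Agent.Results.MP_d975fc_co.EveryOdd

/-- `Δ(z₁, …, zₙ)`, the product of `|z_i - z_j|` over all ordered pairs `(i, j)` with `i ≠ j`. -/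
noncomputable def Delta {n : ℕ} (z : Fin n → ℂ) : ℝ :=
  ∏ p ∈ (Finset.univ : Finset (Fin n)).offDiag, ‖z p.1 - z p.2‖

/-- The constraint: all distances are at most `2`. -/
def Admissible {n : ℕ} (z : Fin n → ℂ) : Prop := ∀ i j, ‖z i - z j‖ ≤ 2

/-- `z` satisfies the constraint and has the largest `Δ` among all configurations that do. -/
def IsMaximiser {n : ℕ} (z : Fin n → ℂ) : Prop :=
  Admissible z ∧ ∀ w : Fin n → ℂ, Admissible w → Delta w ≤ Delta z

/-- The points `z_k` are the vertices of a regular `n`-gon: `z_k = c + r e^{i(θ + 2πk/n)}`. -/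
def IsRegularPolygon {n : ℕ} (z : Fin n → ℂ) : Prop :=
  ∃ (c : ℂ) (r θ : ℝ), 0 ≤ r ∧ ∀ k : Fin n,
    z k = c + r * Complex.exp (Complex.I * ((θ + 2 * Real.pi * ((k.val + 1 : ℕ) : ℝ) / n : ℝ) : ℂ))

open Pool.Agent.RegPoly

lemma Delta_eq {n : ℕ} (z : Fin n → ℂ) : Delta z = pairProd z ^ 2 := by
  unfold Delta pairProd
  have h1 : ∏ p ∈ (Finset.univ : Finset (Fin n)).offDiag, ‖z p.1 - z p.2‖ =
      ∏ i : Fin n, ∏ j ∈ Finset.univ.filter (fun j => i ≠ j), ‖z i - z j‖ := by
    rw [Finset.prod_sigma']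
    refine Finset.prod_bij' (fun p _ => (⟨p.1, p.2⟩ : (_ : Fin n) × Fin n)) (fun q _ => (q.1, q.2))
      ?_ ?_ ?_ ?_ ?_
    · intro p hp; simpa using (Finset.mem_offDiag.1 hp).2.2
    · intro q hq
      have : q.1 ≠ q.2 := by simpa using hq
      simpa using this
    · intro p _; rfl
    · intro q _; rfl
    · intro p _; rfl
  have h2 : ∀ i : Fin n, ∏ j ∈ Finset.univ.filter (fun j => i ≠ j), ‖z i - z j‖ =
      (∏ j ∈ Finset.Ioi i, ‖z i - z j‖) * ∏ j ∈ Finset.Iio i, ‖z i - z j‖ := by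
    intro i
    rw [← Finset.prod_union]
    · apply Finset.prod_congr _ (fun _ _ => rfl)
      ext j
      simp only [Finset.mem_filter, Finset.mem_univ, true_and, Finset.mem_union, Finset.mem_Ioi,
        Finset.mem_Iio]
      constructor
      · intro h; exact lt_or_gt_of_ne h
      · rintro (h | h); exacts [h.ne, h.ne']
    · rw [Finset.disjoint_left]
      intro j hj hj'
      rw [Finset.mem_Ioi] at hj
      rw [Finset.mem_Iio] at hj'
      exact lt_asymm hj hj'
  rw [h1, Finset.prod_congr rfl (fun i _ => h2 i), Finset.prod_mul_distrib, sq]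
  congr 1
  rw [Finset.prod_comm' (t' := Finset.univ) (s' := fun j => Finset.Ioi j)]
  · exact Finset.prod_congr rfl fun i _ => Finset.prod_congr rfl fun j _ => norm_sub_rev _ _
  · intro i j
    simp

lemma main_three (z : Fin 3 → ℂ) (hz : ∀ i j, ‖z i - z j‖ ≤ 2) :
    pairProd z ≤ pairProd (reg 3) := by
  have hval : 2 * (1 / Real.cos (Real.pi / (2 * (3 : ℝ)))) * Real.sin (Real.pi / 3) = 2 := by
    rw [show Real.pi / (2 * (3 : ℝ)) = Real.pi / 6 by norm_num, Real.cos_pi_div_six,
      Real.sin_pi_div_three]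
    have : (0 : ℝ) < Real.sqrt 3 := Real.sqrt_pos.mpr (by norm_num)
    field_simp
  have c3 : ((3 : ℕ) : ℝ) = 3 := by norm_num
  have key : ∀ (i j : Fin 3) (m : ℕ), j.val = i.val + m →
      Real.sin (Real.pi * (m : ℝ) / 3) = Real.sin (Real.pi / 3) → ‖reg 3 i - reg 3 j‖ = 2 := by
    intro i j m h hx
    have := reg_dist (n := 3) (by norm_num) i j (by omega)
    rw [c3, h] at this
    rw [this]
    have e : Real.sin (Real.pi * (((i.val + m : ℕ) : ℝ) - i.val) / 3) = Real.sin (Real.pi / 3) := by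
      rw [← hx]; congr 1; push_cast; ring
    rw [e, hval]
  have h01 : ‖reg 3 0 - reg 3 1‖ = 2 := key 0 1 1 (by decide) (by congr 1; push_cast; ring)
  have h12 : ‖reg 3 1 - reg 3 2‖ = 2 := key 1 2 1 (by decide) (by congr 1; push_cast; ring)
  have h02 : ‖reg 3 0 - reg 3 2‖ = 2 := by
    refine key 0 2 2 (by decide) ?_
    rw [← Real.sin_pi_sub]; congr 1; push_cast; ring
  have e0 : (Finset.Ioi (0 : Fin 3)) = {1, 2} := by decide
  have e1 : (Finset.Ioi (1 : Fin 3)) = {2} := by decide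
  have e2 : (Finset.Ioi (2 : Fin 3)) = ∅ := by decide
  have hexp : ∀ f : Fin 3 → ℂ, pairProd f = ‖f 0 - f 1‖ * ‖f 0 - f 2‖ * ‖f 1 - f 2‖ := by
    intro f
    unfold pairProd
    rw [Fin.prod_univ_three, e0, e1, e2, Finset.prod_insert (by decide), Finset.prod_singleton,
      Finset.prod_singleton, Finset.prod_empty, mul_one]
  rw [hexp, hexp, h01, h12, h02]
  have a := hz 0 1
  have b := hz 0 2
  have c := hz 1 2
  have hab : ‖z 0 - z 1‖ * ‖z 0 - z 2‖ ≤ 2 * 2 :=
    mul_le_mul a b (norm_nonneg _) (by norm_num)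
  exact mul_le_mul hab c (norm_nonneg _) (by norm_num)

lemma main_all (n : ℕ) (hodd : Odd n) (z : Fin n → ℂ) (hz : ∀ i j, ‖z i - z j‖ ≤ 2) :
    pairProd z ≤ pairProd (reg n) := by
  by_cases h9 : 9 ≤ n
  · exact RP38.main_nine n hodd h9 z hz
  have h4 : n = 1 ∨ n = 3 ∨ n = 5 ∨ n = 7 := by
    rcases hodd with ⟨k, hk⟩
    omega
  rcases h4 with h | h | h | h
  · subst h
    simp [pairProd]
  · subst h
    exact main_three z hz
  · subst h
    exact main_five z hz
  · subst h
    exact main_seven z hz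

lemma cos_pos (n : ℕ) (hn : 2 ≤ n) : 0 < Real.cos (Real.pi / (2 * (n : ℝ))) := by
  have h2 : (2 : ℝ) ≤ n := by exact_mod_cast hn
  have hpi := Real.pi_pos
  apply Real.cos_pos_of_mem_Ioo
  constructor
  · have : 0 < Real.pi / (2 * (n : ℝ)) := by positivity
    linarith
  · rw [div_lt_div_iff₀ (by positivity) (by norm_num)]
    nlinarith

/-- for odd `n` the chords of `reg n` are at most `2` -/
lemma reg_le_two (n : ℕ) (hodd : Odd n) (i j : Fin n) : ‖reg n i - reg n j‖ ≤ 2 := by
  wlog h : i.val ≤ j.val generalizing i j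
  · rw [norm_sub_rev]
    exact this j i (by omega)
  by_cases hij : i = j
  · rw [hij, sub_self, norm_zero]; norm_num
  have hlt : i.val < j.val := lt_of_le_of_ne h (fun h' => hij (Fin.ext h'))
  have hn2 : 2 ≤ n := by have := j.2; omega
  have hc := cos_pos n hn2
  rw [reg_dist hn2 i j h]
  have hn0 : (0 : ℝ) < n := by
    have : 0 < n := by omega
    exact_mod_cast this
  have hpi := Real.pi_pos
  -- `sin (π m / n) = cos (π (n - 2 m) / (2 n)) ≤ cos (π / (2 n))`
  set m := j.val - i.val with hm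
  have hmr : (j.val : ℝ) - i.val = m := by rw [hm, Nat.cast_sub h]
  have hmn : m < n := by have := j.2; omega
  have hs : Real.sin (Real.pi * ((j.val : ℝ) - i.val) / n) ≤ Real.cos (Real.pi / (2 * (n : ℝ))) := by
    rw [hmr, ← Real.cos_pi_div_two_sub, ← Real.cos_abs (Real.pi / 2 - _)]
    have hodd' : (1 : ℝ) ≤ |(n : ℝ) - 2 * m| := by
      obtain ⟨k, hk⟩ := hodd
      have h1 : (1 : ℤ) ≤ |(n : ℤ) - 2 * m| := by
        rw [le_abs]
        omega
      exact_mod_cast h1
    have e1 : Real.pi / 2 - Real.pi * (m : ℝ) / n = Real.pi / (2 * n) * ((n : ℝ) - 2 * m) := by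
      field_simp
    have hub : |(n : ℝ) - 2 * m| ≤ n := by
      rw [abs_le]
      have : (m : ℝ) ≤ n := by exact_mod_cast hmn.le
      have : (0 : ℝ) ≤ m := Nat.cast_nonneg m
      constructor <;> linarith
    rw [e1, abs_mul, abs_of_pos (by positivity)]
    have e2 : Real.pi / (2 * (n : ℝ)) * n = Real.pi / 2 := by field_simp
    have hq : 0 < Real.pi / (2 * (n : ℝ)) := by positivity
    apply Real.cos_le_cos_of_nonneg_of_le_pi hq.le
    · calc Real.pi / (2 * (n : ℝ)) * |(n : ℝ) - 2 * m| ≤ Real.pi / (2 * (n : ℝ)) * n :=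
            mul_le_mul_of_nonneg_left hub hq.le
        _ = Real.pi / 2 := e2
        _ ≤ Real.pi := by linarith
    · calc Real.pi / (2 * (n : ℝ)) = Real.pi / (2 * (n : ℝ)) * 1 := (mul_one _).symm
        _ ≤ _ := mul_le_mul_of_nonneg_left hodd' hq.le
  calc 2 * (1 / Real.cos (Real.pi / (2 * (n : ℝ)))) * Real.sin (Real.pi * ((j.val : ℝ) - i.val) / n)
      ≤ 2 * (1 / Real.cos (Real.pi / (2 * (n : ℝ)))) * Real.cos (Real.pi / (2 * (n : ℝ))) :=
        mul_le_mul_of_nonneg_left hs (by positivity)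
    _ = 2 := by field_simp

/-- the value of `Δ` at the regular polygon -/
lemma Delta_reg (n : ℕ) (hn : 1 ≤ n) :
    Delta (reg n) = (n : ℝ) ^ n / Real.cos (Real.pi / (2 * (n : ℝ))) ^ (n * (n - 1)) := by
  rcases Nat.lt_or_ge n 2 with h | h
  · obtain rfl : n = 1 := by omega
    simp [Delta]
  have hc := cos_pos n h
  have hn0 : (0 : ℝ) < n := by
    have : 0 < n := by omega
    exact_mod_cast this
  have hp := EHP56.pairProd_reg_pos h
  have hl := EHP56.log_pairProd_reg h
  rw [Delta_eq]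
  have h1 : 0 < pairProd (reg n) ^ 2 := by positivity
  have h2 : 0 < (n : ℝ) ^ n / Real.cos (Real.pi / (2 * (n : ℝ))) ^ (n * (n - 1)) := by positivity
  apply Real.log_injOn_pos h1 h2
  rw [Real.log_pow, Real.log_div (by positivity) (by positivity), Real.log_pow, Real.log_pow]
  rw [one_div, Real.log_inv] at hl
  push_cast [Nat.cast_sub hn] at hl ⊢
  linarith

/-- **Erdős–Herzog–Piranian, odd case.** For every odd `n` some regular `n`-gon satisfying the constraint is a
maximiser of `Δ`; the largest value of `Δ` is `n ^ n / cos (π / (2 n)) ^ (n (n - 1))`. -/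
theorem result (n : ℕ) (hn : Odd n) :
    ∃ z : Fin n → ℂ, IsRegularPolygon z ∧ IsMaximiser z ∧
      Delta z = (n : ℝ) ^ n / Real.cos (Real.pi / (2 * (n : ℝ))) ^ (n * (n - 1)) := by
  have hn1 : 1 ≤ n := hn.pos
  refine ⟨reg n, ⟨0, 1 / Real.cos (Real.pi / (2 * (n : ℝ))), -(2 * Real.pi / n), ?_, ?_⟩,
    ⟨fun i j => reg_le_two n hn i j, ?_⟩, Delta_reg n hn1⟩
  · rcases Nat.lt_or_ge n 2 with h | h
    · obtain rfl : n = 1 := by omega
      simp
    · have := cos_pos n h
      positivity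
  · intro k
    rw [zero_add, reg]
    congr 2
    push_cast
    ring
  · intro w hw
    rw [Delta_eq, Delta_eq]
    exact pow_le_pow_left₀ (pairProd_nonneg _) (main_all n hn w hw) 2

end Pool.Agent.Results.MP_d975fc_co.EveryOdd
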